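import Mathlib

/-!
# Fixed points of weakly contractive set-valued maps

Let `(X, d)` be a nonempty complete metric space, `θ` a map of the class `𝒜`, and `T` a map from `X`
to the nonempty closed bounded subsets of `X` which is weakly contractive with respect to `θ`, that
is, `H(Tx, Ty) ≤ d(x, y) - θ(d(x, y))` for the Hausdorff metric `H`. Then `T` has a fixed point.
-/

set_option autoImplicit false

open Metric Set Filter Topology
open scoped NNReal

namespace Pool.Agent.Results.MP_e93574_an.WeakContractionsFixedPoint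

/-- The set `Γ`: continuous, nondecreasing, subadditive maps `γ : [0, ∞) → [0, ∞)` with
`γ⁻¹({0}) = {0}`. -/
def IsGamma (γ : ℝ≥0 → ℝ≥0) : Prop :=
  Continuous γ ∧ Monotone γ ∧ (∀ s t, γ (s + t) ≤ γ s + γ t) ∧ γ ⁻¹' {0} = {0}

/-- The class `𝒜`: maps `θ : [0, ∞) → [0, ∞)` for which there are `ε₀ > 0` and `γ ∈ Γ` such that
`θ(t) ≤ ε₀` implies `θ(t) ≥ γ(t)`, for every `t ≥ 0`. -/
def IsClassA (θ : ℝ≥0 → ℝ≥0) : Prop :=
  ∃ ε₀ : ℝ≥0, 0 < ε₀ ∧ ∃ γ : ℝ≥0 → ℝ≥0, IsGamma γ ∧ ∀ t, θ t ≤ ε₀ → γ t ≤ θ t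

/-- `T` takes its values in `𝒞ℬ(X)`, the nonempty closed bounded subsets of `X`. -/
def ValuesClosedBounded {X : Type*} [MetricSpace X] (T : X → Set X) : Prop :=
  ∀ x, (T x).Nonempty ∧ IsClosed (T x) ∧ Bornology.IsBounded (T x)

/-- `T` is weakly contractive with respect to `θ`. -/
def WeaklyContractive {X : Type*} [MetricSpace X] (θ : ℝ≥0 → ℝ≥0) (T : X → Set X) : Prop :=
  ∀ x y, hausdorffDist (T x) (T y) ≤ dist x y - (θ (nndist x y) : ℝ)

/-- subadditive functions of the class `Γ` grow at least linearly near zero -/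
lemma gamma_nsmul {γ : ℝ≥0 → ℝ≥0} (hγ : IsGamma γ) (n : ℕ) (t : ℝ≥0) :
    γ (n * t) ≤ n * γ t := by
  induction n with
  | zero =>
    have h0 : γ 0 = 0 := by
      have : (0 : ℝ≥0) ∈ γ ⁻¹' {0} := by rw [hγ.2.2.2]; rfl
      exact this
    simp [h0]
  | succ n ih =>
    push_cast
    rw [add_mul, one_mul, add_mul, one_mul]
    exact (hγ.2.2.1 _ _).trans (by gcongr)

lemma gamma_pos {γ : ℝ≥0 → ℝ≥0} (hγ : IsGamma γ) {t : ℝ≥0} (ht : 0 < t) : 0 < γ t := by
  rw [pos_iff_ne_zero]
  intro h
  have : t ∈ γ ⁻¹' {0} := h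
  rw [hγ.2.2.2] at this
  exact ht.ne' this

/-- a map of class `𝒜` is at least `min (c t) ε` for some positive `c` and `ε` -/
lemma classA_lower {θ : ℝ≥0 → ℝ≥0} (hθ : IsClassA θ) :
    ∃ c ε : ℝ, 0 < c ∧ c < 1 ∧ 0 < ε ∧ ∀ t : ℝ≥0, min (c * t) ε ≤ θ t := by
  obtain ⟨ε₀, hε₀, γ, hγ, h⟩ := hθ
  have h1 : 0 < γ 1 := gamma_pos hγ one_pos
  have h1' : (0 : ℝ) < γ 1 := by exact_mod_cast h1
  have hε₀' : (0 : ℝ) < ε₀ := by exact_mod_cast hε₀
  refine ⟨min ((γ 1 : ℝ) / 2) (1 / 2), min (ε₀ : ℝ) (γ 1 / 2), by positivity, ?_, by positivity, ?_⟩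
  · exact lt_of_le_of_lt (min_le_right _ _) (by norm_num)
  · intro t
    by_cases ht : θ t ≤ ε₀
    · have h2 : (γ t : ℝ) ≤ θ t := by exact_mod_cast h t ht
      refine le_trans ?_ h2
      rcases le_total 1 t with h3 | h3
      · refine (min_le_right _ _).trans ((min_le_right _ _).trans ?_)
        have : (γ 1 : ℝ) ≤ γ t := by exact_mod_cast hγ.2.1 h3
        linarith
      · rcases eq_or_ne t 0 with rfl | h0
        · refine (min_le_left _ _).trans ?_
          simp
        · have ht0 : (0 : ℝ) < t := by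
            have : 0 < t := pos_iff_ne_zero.2 h0
            exact_mod_cast this
          have h3' : (t : ℝ) ≤ 1 := by exact_mod_cast h3
          refine (min_le_left _ _).trans ?_
          refine (mul_le_mul_of_nonneg_right (min_le_left _ _) ht0.le).trans ?_
          -- use n = ⌈1/t⌉
          set n : ℕ := ⌈(1 : ℝ) / t⌉₊ with hn
          have hn1 : (1 : ℝ) / t ≤ n := Nat.le_ceil _
          have hn2 : (n : ℝ) < 1 / t + 1 := Nat.ceil_lt_add_one (by positivity)
          have h4 : (1 : ℝ≥0) ≤ n * t := by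
            have : (1 : ℝ) ≤ n * t := by
              rw [div_le_iff₀ ht0] at hn1
              exact hn1
            exact_mod_cast this
          have h5 : (γ 1 : ℝ) ≤ n * γ t := by
            have := (hγ.2.1 h4).trans (gamma_nsmul hγ n t)
            exact_mod_cast this
          have h6 : (n : ℝ) * t ≤ 2 := by
            have : (n : ℝ) * t ≤ (1 / t + 1) * t := by gcongr
            have h7 : (1 / (t : ℝ) + 1) * t = 1 + t := by field_simp
            linarith
          have h8 : (0 : ℝ) ≤ γ t := (γ t).2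
          calc (γ 1 : ℝ) / 2 * t ≤ (n * γ t) / 2 * t := by gcongr
            _ = (n * t) / 2 * γ t := by ring
            _ ≤ 2 / 2 * γ t := by gcongr
            _ = γ t := by ring
    · push Not at ht
      have : (ε₀ : ℝ) ≤ θ t := by exact_mod_cast ht.le
      exact (min_le_right _ _).trans ((min_le_left _ _).trans this)

/-- **Theorem.** Every weakly contractive map (with respect to a map of the class `𝒜`) from a
nonempty complete metric space to its nonempty closed bounded subsets has a fixed point. -/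
theorem result {X : Type*} [MetricSpace X] [CompleteSpace X] [Nonempty X]
    (θ : ℝ≥0 → ℝ≥0) (hθ : IsClassA θ) (T : X → Set X) (hT : ValuesClosedBounded T)
    (hw : WeaklyContractive θ T) : ∃ x, x ∈ T x := by
  classical
  obtain ⟨c, ε, hc0, hc1, hε, hlow⟩ := classA_lower hθ
  have hfin : ∀ x y, hausdorffEDist (T x) (T y) ≠ ⊤ := fun x y =>
    hausdorffEDist_ne_top_of_nonempty_of_bounded (hT x).1 (hT y).1 (hT x).2.2 (hT y).2.2
  -- the basic contraction estimate
  have hH : ∀ x y, hausdorffDist (T x) (T y) ≤ dist x y - min (c * dist x y) ε := by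
    intro x y
    refine (hw x y).trans ?_
    have := hlow (nndist x y)
    rw [coe_nndist] at this
    linarith
  -- the next point
  have hnext : ∀ x y : X, y ∈ T x → x ≠ y → ∃ z ∈ T y,
      dist y z < dist x y - min (c * dist x y) ε / 2 := by
    intro x y hy hxy
    have hd : 0 < dist x y := dist_pos.2 hxy
    have hm : 0 < min (c * dist x y) ε := lt_min (by positivity) hε
    have h1 : hausdorffDist (T x) (T y) < dist x y - min (c * dist x y) ε / 2 := by
      have := hH x y
      linarith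
    obtain ⟨z, hz, hyz⟩ := exists_dist_lt_of_hausdorffDist_lt hy h1 (hfin x y)
    exact ⟨z, hz, hyz⟩
  by_contra hcon
  push Not at hcon
  -- consecutive pairs
  obtain ⟨x₀⟩ := ‹Nonempty X›
  obtain ⟨x₁, hx₁⟩ := (hT x₀).1
  let P : Type _ := {p : X × X // p.2 ∈ T p.1}
  have hne : ∀ p : P, p.1.1 ≠ p.1.2 := fun p h => hcon p.1.1 (by
    have := p.2
    rw [← h] at this
    exact this)
  choose g hg1 hg2 using fun p : P => hnext p.1.1 p.1.2 p.2 (hne p)
  let step : P → P := fun p => ⟨(p.1.2, g p), hg1 p⟩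
  let s : ℕ → P := fun n => step^[n] ⟨(x₀, x₁), hx₁⟩
  have hs : ∀ n, s (n + 1) = step (s n) := fun n => Function.iterate_succ_apply' _ _ _
  let x : ℕ → X := fun n => (s n).1.1
  have hx : ∀ n, (s n).1.2 = x (n + 1) := by
    intro n
    change _ = (s (n + 1)).1.1
    rw [hs]
  have hmem : ∀ n, x (n + 1) ∈ T (x n) := by
    intro n
    rw [← hx]
    exact (s n).2
  let d : ℕ → ℝ := fun n => dist (x n) (x (n + 1))
  have hdpos : ∀ n, 0 < d n := by
    intro n
    have := hne (s n)
    rw [hx] at this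
    exact dist_pos.2 this
  have hd : ∀ n, d (n + 1) < d n - min (c * d n) ε / 2 := by
    intro n
    have := hg2 (s n)
    rw [hx] at this
    have h2 : g (s n) = x (n + 1 + 1) := by
      rw [← hx (n + 1), hs n]
    rw [h2] at this
    exact this
  -- eventually `c * d n ≤ ε`
  have hdec : ∀ n, d (n + 1) ≤ d n := by
    intro n
    have := hd n
    have h2 : 0 < min (c * d n) ε := lt_min (mul_pos hc0 (hdpos n)) hε
    linarith
  have hanti : Antitone d := antitone_nat_of_succ_le hdec
  have hsmall : ∃ n₀, c * d n₀ ≤ ε := by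
    by_contra hno
    push Not at hno
    have h3 : ∀ n : ℕ, d n ≤ d 0 - n * (ε / 2) := by
      intro n
      induction n with
      | zero => simp
      | succ n ih =>
        have h4 := hd n
        rw [min_eq_right (hno n).le] at h4
        push_cast
        linarith
    obtain ⟨n, hn⟩ := exists_nat_gt (d 0 / (ε / 2))
    have h5 := h3 n
    have h6 := hdpos n
    rw [div_lt_iff₀ (by positivity)] at hn
    linarith
  obtain ⟨n₀, hn₀⟩ := hsmall
  have hgeom : ∀ k : ℕ, d (n₀ + k) ≤ d n₀ * (1 - c / 2) ^ k := by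
    intro k
    induction k with
    | zero => simp
    | succ k ih =>
      have h4 := hd (n₀ + k)
      have h7 : c * d (n₀ + k) ≤ ε :=
        (mul_le_mul_of_nonneg_left (hanti (Nat.le_add_right n₀ k)) hc0.le).trans hn₀
      rw [min_eq_left h7] at h4
      have h8 : d (n₀ + (k + 1)) ≤ d (n₀ + k) * (1 - c / 2) := by
        have : n₀ + (k + 1) = n₀ + k + 1 := rfl
        rw [this]
        linarith
      calc d (n₀ + (k + 1)) ≤ d (n₀ + k) * (1 - c / 2) := h8
        _ ≤ (d n₀ * (1 - c / 2) ^ k) * (1 - c / 2) :=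
            mul_le_mul_of_nonneg_right ih (by linarith)
        _ = d n₀ * (1 - c / 2) ^ (k + 1) := by ring
  have hcau : CauchySeq (fun k => x (n₀ + k)) := by
    apply cauchySeq_of_le_geometric (1 - c / 2) (d n₀) (by linarith)
    intro k
    exact hgeom k
  obtain ⟨a, ha⟩ := cauchySeq_tendsto_of_complete hcau
  -- `a` is a fixed point
  apply hcon a
  have hcl : IsClosed (T a) := (hT a).2.1
  rw [← hcl.closure_eq, Metric.mem_closure_iff]
  intro δ hδ
  have ha' : Tendsto (fun k => x (n₀ + (k + 1))) atTop (𝓝 a) :=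
    (tendsto_add_atTop_iff_nat (f := fun k => x (n₀ + k)) 1).2 ha
  obtain ⟨k₁, hk₁⟩ := (Metric.tendsto_atTop.1 ha) (δ / 2) (by positivity)
  obtain ⟨k₂, hk₂⟩ := (Metric.tendsto_atTop.1 ha') (δ / 2) (by positivity)
  set k := max k₁ k₂ with hk
  have hk1 := hk₁ k (le_max_left _ _)
  have hk2 := hk₂ k (le_max_right _ _)
  have h9 : hausdorffDist (T (x (n₀ + k))) (T a) < δ / 2 := by
    refine lt_of_le_of_lt (hH _ _) ?_
    have : 0 ≤ min (c * dist (x (n₀ + k)) a) ε := le_min (by positivity) hε.le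
    linarith
  obtain ⟨z, hz, hz2⟩ := exists_dist_lt_of_hausdorffDist_lt (hmem (n₀ + k)) h9 (hfin _ _)
  refine ⟨z, hz, ?_⟩
  calc dist a z ≤ dist a (x (n₀ + (k + 1))) + dist (x (n₀ + (k + 1))) z := dist_triangle _ _ _
    _ < δ / 2 + δ / 2 := add_lt_add (by rw [dist_comm]; exact hk2) hz2
    _ = δ := by ring

end Pool.Agent.Results.MP_e93574_an.WeakContractionsFixedPoint
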